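import Pool.Agent.Helper50.Gap.Final

/-!
# A uniform growth gap for (locally Noetherian)-by-nilpotent groups

Let `S` be a nonempty finite subset of a group, not assumed symmetric. Suppose that `⟨S⟩` has a
quotient `Q` with a normal subgroup `N` such that `Q / N` is nilpotent of class at most `c`, every
subgroup of a finitely generated subgroup of `N` is finitely generated, and `N` is not finitely
generated. Then the exponential growth rate of `S` is at least `(log 2) / 3 ^ c`.
-/

namespace Pool.Agent.Helper50.Old.LocallyNoetherianByNilpotent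

open Pointwise Filter Topology

theorem result {Γ : Type*} [Group Γ] [DecidableEq Γ] (S : Finset Γ) (hS : S.Nonempty)
    {Q : Type*} [Group Q] (f : Subgroup.closure (S : Set Γ) →* Q) (hf : Function.Surjective f)
    (N : Subgroup Q) [hN : N.Normal] (c : ℕ)
    (hc : (⊤ : Subgroup Q).lowerCentralSeries c ≤ N)
    (hloc : ∀ H K : Subgroup Q, H ≤ N → H.FG → K ≤ H → K.FG) (hfg : ¬ N.FG) :
    ∃ ρ : ℝ, Tendsto (fun n : ℕ => Real.log ((S ^ n).card : ℝ) / n) atTop (𝓝 ρ) ∧
      Real.log 2 / 3 ^ c ≤ ρ :=
  Pool.Agent.Helper50.Gap.main S hS f hf N hN c hc hloc hfg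

end Pool.Agent.Helper50.Old.LocallyNoetherianByNilpotent
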